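import Pool.Agent.K3h96.JI.Blowup
import Pool.Agent.K3h96.JI.NonLinear

/-!
# Non-linear self-similar hereditarily just infinite groups exist

Let `A = F₂[[x_1, …, x_n]]` with `n ≥ 3` and let `J (Fin n)` be the group of all automorphisms of
the `F₂`-algebra `A` that act trivially on the associated graded ring: `g f - f` has order at least
`t + 1` whenever `f` has order at least `t`. As an abstract group it is residually finite,
hereditarily just infinite, admits a self-similar action on a rooted tree, and is not linear over
any field.

* Residually finite: the congruence subgroups `N m` have finite index and trivial intersection.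
* Hereditarily just infinite: each nontrivial (abstract) subgroup normalised by a congruence subgroup
  contains a congruence subgroup. One first produces, with a precision argument using large powers
  of Frobenius, elements with leading vector fields `x_t^N ∂_j` for all `t` and `j`; the brackets
  with a finite family of such elements fill all deep layers of `Der A`, and a successive
  approximation gives the whole congruence subgroup as a set of products of commutators.
* Self-similar: the blow-up `x_i = x_i' x_n'` of the maximal ideal induces a virtual endomorphism
  on the subgroup of index `2^(n-1)` of the automorphisms `g` for which `g x_i` has no term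
  `x_n ^ 2` (`i < n`). It maps `x_1 ↦ x_1 + x_n^l` to `x_1 ↦ x_1 + x_n^(l-1)`, so its core is
  trivial.
* Not linear: the group contains an infinite elementary abelian 2-group, so the characteristic of
  the field would be 2, and finite 2-subgroups of arbitrarily large class.
-/

set_option autoImplicit false

universe u

namespace Pool.Agent.Results.MP_8eb9f8_al.NonLinearSelfSimilarHJI

open Pool.Agent.K3h96.JI

/-- For `n ≥ 3` the group `J (Fin n)` of automorphisms of `F₂[[x_1, …, x_n]]` acting trivially on
the associated graded ring is a residually finite, hereditarily just infinite group which admits a
self-similar action on a rooted tree and is not linear over any field. -/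
theorem result (n : ℕ) (hn : 3 ≤ n) :
    IsResiduallyFinite (J (Fin n)) ∧ IsHereditarilyJustInfinite (J (Fin n)) ∧
      AdmitsSelfSimilarAction (J (Fin n)) ∧ ¬ IsLinear.{u} (J (Fin n)) := by
  have : Nontrivial (Fin n) := Fin.nontrivial_iff_two_le.mpr (by omega)
  refine ⟨J_residuallyFinite, J_hji, J_selfSimilar, ?_⟩
  exact J_notLinear (x := (⟨0, by omega⟩ : Fin n)) (y := ⟨1, by omega⟩) (z := ⟨2, by omega⟩)
    (by simp) (by simp) (by simp)

end Pool.Agent.Results.MP_8eb9f8_al.NonLinearSelfSimilarHJI
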